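import Pool.Agent.H831.Fin3
import Pool.Agent.H831.C.FC2

/-!
# MP_98dedd_gt: the torsion growth in the middle degree differs from the `L²`-torsion

The closed aspherical manifold is the cube `M = N × N × N` of a seven-dimensional manifold `N`, the real moment-angle
complex of an explicit flag triangulation of the sphere of dimension six. The definitions are in the file
`Pool/Agent/H831/Stm.lean`.
-/

set_option autoImplicit false

open Filter Topology

namespace Pool.Agent.Results.MP_98dedd_gt.TorsionGrowthNotL2Torsion

open Pool.Agent.TH630.Tor Pool.Agent.H831.Stm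

/-- There is a closed aspherical manifold of dimension `21 = 2 * 10 + 1` with universal covering `X` and fundamental
group `G`, the `L²`-Betti numbers of which vanish, which is of determinant class and the `L²`-torsion of which is `0`,
and a chain `G = K 0 > K 1 > ...` of normal subgroups of finite index with trivial intersection, such that
`log |tors H_10(X / K i; ℤ)| / [G : K i]` is eventually at least a positive constant. Hence it does not converge to
`(-1) ^ 10` times the `L²`-torsion. The manifold is the cube of the real moment-angle complex of a flag triangulation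
of the sphere of dimension `6`, which is a combinatorial sphere. -/
theorem result : ∃ (n : ℕ) (S : SimpleGraph (Fin n)), PLS 6 (flag S) ∧
    ∃ (X G : Type) (_ : TopologicalSpace X) (_ : Group G) (_ : MulAction G X) (π : X → RMA S × RMA S × RMA S)
      (C : FreeCx G) (K : ℕ → Subgroup G),
      AsphMfd 21 G π ∧ IsResol C ∧ C.DetL2Acyclic ∧ C.l2torsion = 0 ∧ Chain K ∧
      (∃ c : ℝ, 0 < c ∧ ∀ᶠ i in atTop, c ≤ rate X (K i) 10) ∧
      ¬ Tendsto (fun i => rate X (K i) 10) atTop (𝓝 ((-1) ^ 10 * C.l2torsion)) := by
  have : Fact (Nat.Prime 3) := ⟨Nat.prime_three⟩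
  obtain ⟨N, H, h1, Z, κ, -, h2⟩ := Pool.Agent.H831.FC.flagSphere
  obtain ⟨n, S, g1, X, G, _, _, _, π, C, K, g2, g3, g4, g5, g6, c, g7, g8⟩ :=
    Pool.Agent.H831.Fin.main3 (p := 3) (d := 3) (by norm_num) (by norm_num) ⟨N, H, h1, Z, κ, h2⟩
  refine ⟨n, S, g1, X, G, inferInstance, inferInstance, inferInstance, π, C, K, g2, g3, g4, g5, g6, ⟨c, g7, g8⟩,
    fun h => ?_⟩
  rw [g5, mul_zero] at h
  obtain ⟨i, h3, h4⟩ := (g8.and (h.eventually (gt_mem_nhds g7))).exists
  exact absurd h4 (not_lt.2 h3)

end Pool.Agent.Results.MP_98dedd_gt.TorsionGrowthNotL2Torsion
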